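import Pool.Agent.U172.SM.JVar

/-!
# The Tate conjecture for varieties of odd dimension with a place of bad reduction, times arbitrary
# varieties with smaller cohomology or smaller monodromy

Let `W` be a Weil cohomology theory with algebraically closed coefficients (étale cohomology with
coefficients in the closure of `ℚ_ℓ`) on a class of smooth projective varieties over the algebraic
closure of a number field `F`, with an action of a group `Γ` (the Galois group of `F`) on the cohomology
of the varieties under consideration; `χ` is the action on the Tate twists. The transcendental
cohomology `T(A)` of a variety `A` is the orthogonal complement of all algebraic classes (for a curve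
`T(A) = H^1(A)`).

* `X_i` (`i` in a finite set) are varieties of odd dimension for which numerical and homological
  equivalence coincide (for example curves), whose transcendental cohomology is concentrated in the
  middle degree and irreducible under all subgroups of finite index of `Γ`.
* `Y_b` (`b` in a finite set) are **arbitrary** varieties for which numerical and homological
  equivalence coincide (for example surfaces or curves), and `Z` is **any** variety.
* `N` (`unipotent`) is the set of the `g ∈ Γ` with `χ(g) = 1` which act unipotently on all `T(X_i)` and
  `T(Y_b)` and on `H(Z)`. By the monodromy theorem it contains a power of every element of an inertia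
  group; the varieties `Y_b` and `Z` may have bad reduction of any kind at the place.
* For every `i` there is an element `g_i` of `N` which acts trivially on the cohomology of the `X_j` with
  `j ≠ i` and satisfies one of the following conditions on `T_i = T(X_i)`.
  **(any bad reduction)** `g_i` acts nontrivially on `T_i`, of any unipotent type, and some element of `Γ`
  (a Frobenius element at a good place) has few quotients of eigenvalues on `T_i`: the eigenvalues are
  simple, and for `q ≠ 1` there are at most two eigenvalues `a` such that `q a` is an eigenvalue, and none
  such that `q a` and `q ^ 2 a` are eigenvalues (this is so if the eigenvalues are `a_1, ..., a_r` and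
  `λ / a_1, ..., λ / a_r` with `λ, a_1, ..., a_r` multiplicatively independent).
  **(mixed Jordan blocks)** `g_i` has Jordan blocks of size one on `T_i`, all the other Jordan blocks have
  even sizes, and there is exactly one block of some even size.
  **(one Jordan block)** `g_i` has a single Jordan block on `T_i`, and the dimension of `T_i` is two or
  the eigenvalues of some element of `Γ` on `T_i` are not a geometric progression.
* **(smaller base)** For all `i` and `b`, the spaces `T(Y_b)` and `H(Z)` are sums of subspaces `U` stable
  under `Γ` (for example their parts of given degree `m`) each of which is smaller than `T_i`:
  `dim U < dim T_i`; or, for some `g ∈ N`, some power of `g - 1` is zero on `U` and not on `T_i`; or, for some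
  `g ∈ N` with `(g - 1) ^ 2 = 0` on `T_i`, the rank of `g - 1` on `U` is smaller than the rank on `T_i`.

Let `Z₁` be any product `Y_{b_1} × (Y_{b_2} × ( ⋯ × Z))` (repetitions are allowed), and let `T` be the
product of `Z₁` with arbitrary powers of different `X_i`.

**Theorem.** The Tate conjecture, for cycles of all codimensions, holds for `T` if and only if it holds
for `Z₁`. Moreover, for every system `C` of classes stable under products, pull-backs and
push-forwards which contains the algebraic classes (for example Hodge classes for a comparison
isomorphism, absolute Hodge classes, motivated classes), all Tate classes of `T` are in `C` if and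
only if all Tate classes of `Z₁` are.

Examples of bases to which no condition on the reduction applies: (1) `Z₁` is a product of arbitrarily
many varieties all of whose Betti numbers are smaller than `dim T_i` (for example: the `X_i` are curves
of genus `g` and `Z₁` is a product of arbitrary curves of genus smaller than `g`; then `Z` is a
point). (2) the `g_i` have a Jordan block of size at least four on `T_i`
(for example Calabi-Yau threefolds near a point of maximally unipotent monodromy), and `Z₁` is a
product of arbitrarily many arbitrary curves and surfaces: the Jordan blocks on `H^m` of a curve or
surface have at most the size three.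

Proof. Let `M` be the sum of `H(Z)` and the `T(Y_b)`, and `𝔊` the Lie algebra of the operators on
`⊕ T_i ⊕ M` which are skew on the `T_i`, preserve all stable subspaces of `M` and act in the same way
on the arguments and on the values of all multilinear maps from the `T_i` and `T(Y_b)` to `H(Z)` which
are equivariant under a subgroup of finite index. It contains the logarithms of the elements of `N`
(`GR_unip`). By the methods of the library its projection to `⊕ T_i` contains all the symplectic Lie
algebras `𝔰𝔭(T_i)`. Now kill the pieces `U` one by one. If no nonzero element `(x, 0)` of
`𝔰𝔭(T_i) ⊕ 𝔤𝔩(U)` came from `𝔊`, then `𝔰𝔭(T_i)` would be a quotient of a Lie algebra of operators on `U`.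
**Comparison** (`dim_le`, `rank_le`): then `dim U ≥ dim T_i`, and the rank on `U` of a lift of an
element `n` of `𝔰𝔭(T_i)` with `n ^ 2 = 0` is not smaller than the rank of `n`. Indeed let `r` be the rank of
`n`, choose a Lagrangian frame for `n`, numbers `c_1, ..., c_r` linearly independent over `ℚ` and
`f ∈ 𝔰𝔭(T_i)` such that `f + t ^ 2 n` has the eigenvalues `± c_j t / 2`. For lifts `f'` and `m` of `f` and `n`
the number `c_j t` is a difference of two eigenvalues of `f' + t ^ 2 m`. So the characteristic
polynomial `P(z, t)` of `f' + t ^ 2 m` has irreducible factors `g_j` and `g_j(z + c_j t, t)`
(`exists_factor`). The coefficient of `t` in the mean value of the roots changes its sign under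
`t ↦ - t`; so its values on the factors are a symmetric set of numbers whose span over `ℚ` contains all
`c_j`, and hence there are at least `2 r` factors which depend on `t` (`count_card`). But the degree of
`P` in `t` is at most twice the rank of `m`, and the degree in `z` is `dim U`. It follows that the
symplectic Lie algebras, acting as zero on `M`, are contained in `𝔊`, and then the first fundamental
theorem of invariant theory shows that all Tate classes on `T` are combinations of products of
algebraic classes of the factors, of transcendental parts of diagonals and of Tate classes on `Z₁`.
-/

universe u

namespace Pool.Agent.Results.MP_938ce2_ag.BadReductionTimesArbitrary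

open Pool.Agent.H914 Pool.Agent.H281R3.HT Pool.Agent.TH125.Gal Pool.Agent.V11219.Cls
  Pool.Agent.U172.SJ

/-- **The Tate conjecture for products of varieties of odd dimension with bad reduction and
arbitrary varieties with smaller cohomology or monodromy.** -/
theorem result {k : Type u} [Field k] {𝒱 : VarClass k} {ops : CycleOps 𝒱}
    (W : WeilCohomology.{u, 0} ops) [IsAlgClosed W.K] {Γ : Type} [Group Γ] (χ : CharOf W Γ)
    {ι β : Type} [Finite ι] [Finite β] (X : ι → GVar W Γ) (Y : β → GVar W Γ) (Z : GVar W Γ)
    (h : SmallerVars χ X Y Z) (Z₁ : GVar W Γ) (hZ : Products Y Z Z₁) (S : Set ι)
    (T : GVar W Γ) (hT : Towers X Z₁ S T) :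
    (TateHolds χ T ↔ TateHolds χ Z₁) ∧
      ∀ C : Classes W, ClassSystem W C → (TateHoldsIn χ C T ↔ TateHoldsIn χ C Z₁) := by
  classical
  have := Fintype.ofFinite ι
  have := Fintype.ofFinite β
  have hT' := hT.gtower fun i => (h.bad i).1
  exact ⟨(h.tate hZ hT').1, fun _ hC => h.cls hC hZ hT'⟩

end Pool.Agent.Results.MP_938ce2_ag.BadReductionTimesArbitrary
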