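import Pool.Agent.U231.LP.Fin

/-!
# The Tate conjecture for the products of an arbitrary variety with cyclic coverings of large degree

Let `F₀` be a number field (or a finitely generated field of characteristic `0`) with algebraic
closure `k` and Galois group `Γ`, and let `Z` be **any** smooth projective variety over `F₀`. Let
`X_i` be smooth projective equivariant models of cyclic coverings

  `w ^ N_i = f_i (x_1, …, x_n)`, `n = n_i ≥ 1`,

of the projective space, where `f_i ∈ F₀[x]` is a product of powers of linear polynomials, in general
position together with the hyperplane at infinity, of total degree `A_i ≥ 2` (with `n + 1` different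
factors at least), and the `N_i` are different prime numbers, unramified in `F₀`. For instance `X_i`
can be a curve `y ^ N = f (x)` with any polynomial `f` with at least two different roots.

**Theorem.** Let `ν` be the minimum of the dimensions of the `X_i`, and let `B` be a bound for the Hodge
numbers `h^(p,q)(Z)` with `q - p ≥ ν`. If `N_i > A_i ^ 2 B + A_i` for all `i`, then all Tate classes on the
product `Y = X_1 × ⋯ × X_r × Z` are linear combinations of external products of algebraic classes on the
`X_i` and of Tate classes on `Z`, and **the Tate conjecture for `Y` is equivalent to the Tate conjecture
for `Z`**.

So for given `Z` and given degrees `A_i` the theorem applies to all but finitely many prime numbers,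
and the bound depends neither on the number `r` of the factors nor on the polynomials `f_i`. The genus
or the Hodge numbers of the `X_i` grow with `N_i`; no abelian variety with complex multiplication, no
big monodromy group and no case of any conjecture is used, and nothing is assumed about the Galois
representation `H(Z)`. Examples: for `B = 0`, for instance if `Z` is a point or any variety of dimension
smaller than all `dim X_i`, the condition is `N_i > A_i`. For a K3 surface `Z` (`B = 1`) it is
`N_i > A_i ^ 2 + A_i`; since the Tate conjecture is known for K3 surfaces, it follows for
`X_1 × ⋯ × X_r × Z`, in all codimensions.

**The formal setting.** `W` is the `ℓ`-adic cohomology of the varieties over `k`, with coefficients in an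
algebraically closed field `K` which contains `ℂ_ℓ`, and `χ` is the inverse of the cyclotomic character
(so `g c = χ(g)^j c` for `c` in `H^(2j)` says that `c` is invariant in `H^(2j)(j)`). A `WeightData` is a
character `χ` and an operator on every finite-dimensional representation of `Γ`, compatible with the
multilinear maps which are equivariant under a subgroup of finite index (a derivation). The Sen
operator of a place above `ℓ` is such an operator; it is normalized so that `χ` has the weight `1`. On
`H^b(Z)` it is diagonalizable, and the eigenvalue `p` has the multiplicity `h^(p,q)`, `p + q = b`
(Faltings): this is the number `hodgeNumber D Z b e` for `e = q - p`.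

The covering group is generated by `σ : w ↦ ζ w`; an element `g` of `Γ` transforms it into a power
of `σ` with the exponent `c_i (g)`, where `c_i` is the cyclotomic character modulo `N_i` (or its inverse).
For different prime numbers, unramified in `F₀`, these characters are independent. The invariants of `σ`
are algebraic. For `j ≠ 0` modulo `N` let `s_j` be the sum of the fractional parts of the numbers
`j a_k / N`, for the exponents `a_k` of the linear factors and of the hyperplane at infinity. The
eigenspace of `σ` with the number `j` is in the degree `n` and has the Hodge numbers
`h^(p,q) = binomial (s - 1 - s_j, p) * binomial (s_j - 1, q)`, where `s` is the number of hyperplanes (Deligne,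
Esnault and Viehweg). If `0 < j < N / A` then `s_j = 1`, and the eigenspace has the type `(n, 0)`; the
eigenspace for `-j` has the type `(0, n)`. This is what is assumed in `IsCyclicCover`; nothing is used
about the other eigenspaces.

**The proof.** Let `c` be a Tate class on `Y`, and suppose that its component for the characters
`χ_i ≠ 1` of the covering groups, `i ∈ I`, is not zero. For `s ∈ Γ` let `U_s ⊆ H(Z)` be the space of the
contractions of this component with linear forms, moved by `s`: they belong to the characters
`c_i (s) χ_i`. The conjugates `Θ_t` of the weight operator by `t ∈ Γ` preserve all `U_s`, and `Θ_t` is a known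
scalar on `U_s` if all the residues `c_i (t) c_i (s) χ_i` are low (in `(0, N_i / A_i)`) or all are high (in
`(-N_i / A_i, 0)`). Choose `s_k`, `k = 0, …, B`, with `c_i (s_k) χ_i = A_i B + 1 - k` for all `i ∈ I`. For
`k ≠ l` there is a `t` such that the residues for `(t, s_k)` are low and the residues for `(t, s_l)` are
high: this is a consequence of Dirichlet's approximation theorem, since no quotient of two of these
residues is equal, modulo `N_i`, to a quotient of positive integers smaller than `A_i`. So the spaces
`U_{s_k}` are linearly independent. They are all contained in the same Hodge piece of `H(Z)`, of
dimension at most `B`, a contradiction.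

helper231, with helper222, who found the linear bound (by Thue's lemma) in answer to a weaker,
exponential bound. The definitions of weight operators, of the varieties with Galois actions and of
the Tate conjecture are those of the starting files (`HodgeTateTowers`).
-/

set_option autoImplicit false

open CategoryTheory AlgebraicGeometry

universe u

namespace Pool.Agent.Results.MP_938ce2_ag.LargePrimeCoverings

open Pool.Agent.H914 Pool.Agent.TH125.Gal Pool.Agent.Y95.ZT.S Pool.Agent.U231.LP

/-- **The Tate conjecture for the products of an arbitrary variety `Z` with cyclic coverings of
different large prime degrees.** -/
theorem result {k : Type u} [Field k] {𝒱 : VarClass k} {ops : CycleOps 𝒱}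
    {W : WeilCohomology.{u, 0} ops} {Γ : Type} [Group Γ] (D : WeightData W.K Γ)
    (hD : IsNormalized D) {ι : Type} (N A : ι → ℕ) (X : ι → GVar W Γ)
    (hX : IsCoverFamily D N A X) (Z : GVar W Γ) (hZ : GaloisType D Z) (B ν : ℕ) (hν : 0 < ν)
    (hd : ∀ i, ν ≤ (X i).X.dim) (hB : ∀ b e, ν ≤ e → hodgeNumber D Z b e ≤ B)
    (hN : ∀ i, A i ^ 2 * B + A i < N i) {S : Set ι} {Y : GVar W Γ} (hY : Tower X Z S Y) :
    (∀ j y, IsTateClass D Y j y → y ∈ Submodule.span W.K {e | IsExtProduct D X Z Y e}) ∧
      (Tate D Y ↔ Tate D Z) :=
  main hD hX hZ hν hd hB hN hY

end Pool.Agent.Results.MP_938ce2_ag.LargePrimeCoverings
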