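import Pool.Agent.U173.PT.Fin

/-!
# The Tate conjecture over all finite extensions of a number field for products with arbitrary varieties

Let `F` be a number field (the theorem holds for all finitely generated fields), `Γ` its Galois group,
`k` its algebraic closure, `W` the `ℓ`-adic cohomology of varieties over `k` with coefficients in an
algebraic closure of `ℚ_ℓ`, and `χ` the inverse of the cyclotomic character: `g c = χ(g)^n c` for
`c ∈ H^(2n)` says that `c` is fixed in `H^(2n)(n)`. The theorem is proved for an abstract Weil cohomology
theory and an abstract group with the formal properties of a Galois action (`IsGaloisVar`: degrees,
orientation, cycle classes, each fixed by a subgroup of finite index after the twist).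

A *place* `v` (of `F`, or a closed point of an arithmetic model; a place of a finite extension is allowed
too) is given by a Frobenius element `σ_v ∈ Γ` (any element which induces the geometric Frobenius of the
residue field with `p ^ m` elements), a prime number `p`, `m`, and an embedding of `ℚ̄` in an algebraic
closure of `ℚ_p`. A field `L ⊆ ℚ̄` is a *slope field* of an algebraic number `a` if the automorphisms of
`ℚ̄` over `L` do not change the `p`-adic absolute values of the conjugates of `a`. (For an eigenvalue `a` of
an ordinary abelian variety or K3 surface this is a reflex field, a CM field.)

Let `X_i` be smooth projective varieties over `F`, of any dimensions, and `P_i` sets of places, such that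
(`IsGood`) the cohomology of `X_i` is the direct sum of the span of the classes of algebraic cycles (over
`k`) and a subspace `T_i` stable under `Γ`, the eigenvalues of the `σ_v` on `T_i` are Weil numbers with
slope field `L_i(v)` (`v ∈ P_i`; bad reduction is allowed), and **no nonzero subspace of `T_i` which is
stable under an open subgroup of `Γ` is supersingular at all places in `P_i`**: for each there are
a `v ∈ P_i` and a power of `σ_v` with an eigenvalue, on this subspace, which is not a power of `p` up to a
root of unity. Examples: K3 surfaces (with a place of finite height, by the theorem of Bogomolov and
Zarhin; then this is true for every nonzero stable subspace, by the theorems on `End T_i`); abelian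
varieties of dimension at most three and others without exotic classes (and all their powers for
which the Tate conjecture is known) which have no potentially stable factor `H^1(A')` with supersingular
reduction everywhere in `P_i`; products of such varieties.

Let `Y_j` and `Z` be **arbitrary** smooth projective varieties over `F`. Suppose (`IsSystem`) that, for
`v ∈ P_i`, the field `L_i(v)` contains a totally real field `E_i(v)` over which it is normal (all CM
fields: `E_i(v)` the maximal totally real subfield; needed only if there is more than one other factor
besides `Z`), and that the slope fields at `v` (made larger by `E_i(v)`) of each of the `X_j`, `j` behind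
`i`, of each of the `Y_j` and of `Z`, **separately for each of these varieties**, meet `L_i(v)` in a totally
real field.

**Theorem.** Let `V = ∏ X_i × ∏ Y_j × Z`.
1. **The Tate conjecture holds for `V` (cycles of all codimensions, classes fixed by open subgroups, so
   over all finite extensions of `F`) if and only if it holds for `∏ Y_j × Z`.**
2. In particular it holds for `∏ X_i × Z` if the cohomology of `Z` is spanned by algebraic classes (`Z` a
   point, a flag variety, ...), for example for all products of K3 surfaces and abelian surfaces
   satisfying the conditions on the pairs.
3. The Tate classes on `X_i × V'`, where `V'` is the product of the factors behind `i`, are linear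
   combinations of products of classes of cycles on `X_i` and Tate classes on `V'`.

Nothing is assumed on the Tate conjecture, the semisimplicity, the monodromy groups or the
endomorphisms of the varieties `Y_j` and `Z`.

Proof. Let `c` be a Tate class on `X_i × V'`, fixed by the open subgroup `Δ` (up to the twist). The
contractions of `c` with the linear forms on `H(V')`, projected to `T_i`, form a `Δ`-stable subspace `U`. If
`U ≠ 0`, there are `v ∈ P_i` and `n` with `σ_v ^ n ∈ Δ` such that `σ_v ^ n` has a not supersingular
eigenvalue `a ^ n` on `U`, `a` an eigenvalue of `σ_v` on `T_i`. It follows that `(a b)^n` is a power of `p`
for an eigenvalue `b` of `σ_v` on `H(V')`, a product of eigenvalues on the factors. The function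
`g ↦ 2 log |g a| - const` on the Galois group of `ℚ̄` is odd under complex conjugation and invariant
under `Gal(ℚ̄/L_i(v))`; averaging the relation over this group, which is normal in the group over `E_i(v)`,
kills the contributions of the other factors, since their slope fields meet `L_i(v)` in totally real
fields (`U173/OP/Star`). So `a` is supersingular, a contradiction. Hence `c` lies in the span of the
products with algebraic classes on `X_i`. The same argument with the orthogonal space of `T_i` shows
that homological and numerical equivalence coincide on `X_i`; so the coefficients of `c` are
Tate classes on `V'`.

Compared with `MP_0fca13_ag.HeightsAtOnePlace` of the starting library (K3 surfaces whose reductions at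
ONE place have different heights; whose step from the splitting to the Tate conjecture is used,
`N179/FG/Tat`) the condition is on slope fields, for several places, and there may be several arbitrary
factors. Compared with my `MP_90d181_ag.NoSupersingularParts` (Tate classes fixed by the whole
group, subspaces stable under the whole group), all finite extensions are treated at once.
-/

set_option autoImplicit false

open CategoryTheory AlgebraicGeometry

universe u

namespace Pool.Agent.Results.MP_938ce2_ag.PotentialTateClasses

open Pool.Agent.H914 Pool.Agent.H914.VarClass Pool.Agent.H914.VarClass.Obj
  Pool.Agent.H914.WeilCohomology Pool.Agent.H281R3.HT Pool.Agent.TH125.Gal Pool.Agent.U173.PT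

/-- **The Tate conjecture over all finite extensions for products of varieties without potentially
stable supersingular parts with arbitrary varieties.** -/
theorem result {k : Type u} [Field k] {𝒱 : VarClass k} {ops : CycleOps 𝒱}
    (W : WeilCohomology.{u, 0} ops) [IsAlgClosed W.K] {Γ : Type} [Group Γ] (χ : Γ →* W.Kˣ)
    {I I' : Type} (P : I → Set (Place Γ))
    (E L : I → Place Γ → IntermediateField ℚ (AlgebraicClosure ℚ)) (X : I → GVar W Γ)
    (Y : I' → GVar W Γ) (Z : GVar W Γ) (l : List I) (l' : List I')
    (h : IsSystem χ P E L X Y Z l l') (B V : GVar W Γ) (hB : IsProductOf Y Z l' B)
    (hV : IsProductOf X B l V) :
    (TateConjecture χ V ↔ TateConjecture χ B) ∧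
    (l' = [] → algSpan W Z.X = ⊤ → TateConjecture χ V) ∧
    (∀ (i : I) (l₁ : List I) (B' : GVar W Γ), l = i :: l₁ → IsProductOf X B l₁ B' →
      ClassesSplit χ (X i) B') := by
  refine ⟨h.tate hB hV, fun h1 h2 => (h.tate hB hV).2 ?_, fun i l₁ B' hl hB' => ?_⟩
  · subst h1
    cases hB
    exact tate_of_top h2
  · subst hl
    exact h.classesSplit hB hB'

end Pool.Agent.Results.MP_938ce2_ag.PotentialTateClasses
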