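import Pool.Agent.U173.DN.Main

/-!
# The Tate conjecture for products with all varieties with small Betti numbers

Let `F` be a number field (or any finitely generated field), `Γ` its Galois group, `k` an algebraic
closure, `W` the `ℓ`-adic cohomology of varieties over `k` with coefficients in an algebraic closure of
`ℚ_ℓ`, and `χ` the inverse of the cyclotomic character: a class `c ∈ H^(2n)` is a Tate class if
`g c = χ(g)^n c` for all `g` in an open subgroup (`IsTateAct`). The theorem is proved for an abstract Weil
cohomology theory and an abstract group with the formal properties of a Galois action.

A *place* `v` is given by a Frobenius element `σ_v`, the number `q = p ^ m` of elements of the residue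
field and an embedding of `ℚ̄` in an algebraic closure of `ℚ_p`. The slopes of an eigenvalue of `σ_v` are
the `q`-adic valuations of its conjugates; they are rational numbers (`IsSlope`).

Let `X_i` be arbitrary smooth projective varieties over `F`; no case of the Tate conjecture is assumed for
them. Let `P_i` be a set of places and `R_i(v)`, `v ∈ P_i`, a power of a prime number, such that
`H(X_i)` is the direct sum of the span of the Tate classes and a stable subspace `T_i` (semisimplicity) and
* each eigenvalue of `σ_v` on `T_i`, `v ∈ P_i`, is supersingular (a rational power of `p` up to a root of
  unity) or has a slope whose denominator is divisible by `R_i(v)`;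
* no nonzero subspace of `T_i` which is stable under an open subgroup is supersingular at all `v ∈ P_i`.

**Theorem.** Let `B = ∏ Y_j × Z` and `V = ∏ X_i × B`, where for `v ∈ P_i`, `R = R_i(v)`, each of the
varieties `X_j`, `j` behind `i`, `Y_j` and `Z` satisfies one of the following conditions (`Avoids`):
* all its slopes at `v` have denominators not divisible by `R`;
* `R > 2`, it has good reduction at `v`, **and its Betti numbers are less than `2 R`**;
* `R > 2`, it has good reduction at `v`, and the eigenvalues of `σ_v` on its cohomology are products of
  powers of `q` and eigenvalues in degrees with Betti numbers less than `2 R`: for instance an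
  abelian variety of dimension less than `R`, or a product of several varieties of this kind or of the
  second kind.
Then the Tate conjecture holds for `V` if and only if it holds for all `X_i` and for `B` (cycles of all
codimensions, over all finite extensions of `F`), and the Tate classes on `X_i × V'`, `V'` the product of
the factors behind `i`, are linear combinations of products of Tate classes on `X_i` and on `V'`.

Of good reduction only the following published facts are used (`NewtonAct`): the eigenvalues are
algebraic and have rational slopes, the multiplicity of a slope in `H^n` is divisible by its
denominator (Manin, Katz–Messing), and the slopes `s` and `n - s` have the same multiplicity in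
`H^n` (Deligne).

Examples for `X_i`, with only one place in `P_i`:
* abelian varieties of odd prime dimension `r` with good reduction at `v` and the slopes `a / r` and
  `(r - a) / r`, `0 < a < r`, in `H^1`, such that the field generated by a Frobenius eigenvalue in `H^1`
  contains no imaginary quadratic field; `R = r`. (The decomposition group of `p` permutes the `r`
  eigenvalues of slope `a / r` transitively, so it contains an `r`-cycle; therefore the Frobenius torus is
  a maximal torus of `GSp_2r`, and supersingular subspaces consist of Tate classes. A product of
  eigenvalues of `H^1`, `x` of them of slope `a / r` and `y` of slope `(r - a) / r`, has the slope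
  `y + a (x - y) / r`, where `|x - y| ≤ r`.) The Tate conjecture is known for them (Tankeev, Ribet,
  Chi). So **for every smooth projective variety `Z` over `F` with good reduction at `v` and Betti
  numbers less than `2 r` the Tate conjecture for `X × Z` is equivalent to the Tate conjecture for
  `Z`**, and for `X × A × Z`, `A` an abelian variety of dimension less than `r` with good reduction at `v`,
  to the one for `A × Z`.
* K3 surfaces with good reduction of finite height `h` at `v`, `R` any power of a prime number which
  divides `h` (the eigenvalues on `T` which are not supersingular are conjugates of numbers of slope
  `1 - 1 / h`, and the nonzero stable subspaces are not supersingular, by the theorems on the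
  endomorphisms of `T` of Zarhin, Tankeev, André, Madapusi Pera). For instance, if `h = 9` then the Tate
  conjecture for `X × Z` is equivalent to the Tate conjecture for `Z` for every `Z` with good reduction at
  `v` and Betti numbers less than `18`.

Proof. As in `MP_640417_ag.ProductAndFactors` a Tate class on `X_i × V'` which is not a combination of
products would give eigenvalues `α` on `T_i`, not supersingular, and `β` on `V'` of `σ_v`, `v ∈ P_i`, such that
`α β` is a power of `q` up to a root of unity. But a slope of `α` has a denominator divisible by the prime
power `R` and the slopes of `β` have not. If a slope `s` in `H^n` of a variety with good reduction has a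
denominator divisible by `R > 2` then `s ≠ n - s`, and both have multiplicities divisible by the
denominator, so that the Betti number is at least `2 R`.
-/

set_option autoImplicit false

open CategoryTheory AlgebraicGeometry

universe u

namespace Pool.Agent.Results.MP_938ce2_ag.SlopeDenominators

open Pool.Agent.H914 Pool.Agent.H914.VarClass Pool.Agent.H914.VarClass.Obj
  Pool.Agent.H914.WeilCohomology Pool.Agent.H281R3.HT Pool.Agent.TH125.Gal Pool.Agent.U173.PT
  Pool.Agent.U173.PQ Pool.Agent.U173.DN

/-- **The Tate conjecture for products of varieties whose slopes have large denominators with all
varieties with small Betti numbers.** -/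
theorem result {k : Type u} [Field k] {𝒱 : VarClass k} {ops : CycleOps 𝒱}
    (W : WeilCohomology.{u, 0} ops) [IsAlgClosed W.K] {Γ : Type} [Group Γ] (χ : Γ →* W.Kˣ)
    {I I' : Type} (P : I → Set (Place Γ)) (R : I → Place Γ → ℕ) (X : I → GVar W Γ)
    (Y : I' → GVar W Γ) (Z : GVar W Γ) (l : List I) (l' : List I')
    (h : IsDenominatorSystem χ P R X Y Z l l') (B V : GVar W Γ) (hB : IsProductOf Y Z l' B)
    (hV : IsProductOf X B l V) :
    (TateConjecture χ V ↔ (∀ i ∈ l, TateConjecture χ (X i)) ∧ TateConjecture χ B) ∧
    ∀ (i : I) (l₁ : List I) (V' : GVar W Γ), l = i :: l₁ → IsProductOf X B l₁ V' →
      AreProducts χ (X i) V' := by
  refine ⟨h.tate hB hV, fun i l₁ V' hl hV' => ?_⟩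
  subst hl
  exact h.areProducts hB hV'

end Pool.Agent.Results.MP_938ce2_ag.SlopeDenominators
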